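import Pool.Agent.R407.RelDisc
import Pool.Agent.R366.UC.Coef
import Pool.Agent.N752.Shelf.BoundedDegreeHyperplanes

set_option autoImplicit false

/-!
The discriminant of the field of definition of a point of degree `r` is at most `(2 r - 2) h + O(1)`.
-/

namespace Pool.Agent.N752.FD

open NumberField Height Polynomial
open scoped LinearAlgebra.Projectivization
open Pool.Agent.Results.MP_44a246_nt.BoundedDegreeHyperplanes
  (height logDisc toC fieldOf rep_toC n_pos)
open Pool.Agent.H57R3.VJ (lin)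
open Pool.Agent.R366.UC (up ratio_unif)

/-- two embeddings over `k` of the field of definition of `Q` which agree on the coordinates are
equal -/
lemma emb_eq {k K : IntermediateField ℚ ℂ} (h : k ≤ K) {m : ℕ} (Q : ℙ K (Fin (m + 1) → K))
    (hQ : fieldOf k (toC Q) = K) (j : Fin (m + 1)) (hj : Q.rep j ≠ 0)
    (σ τ : K →ₐ[ℚ] ℂ) (hk : ∀ x : k, σ (IntermediateField.inclusion h x) =
      τ (IntermediateField.inclusion h x))
    (hu : ∀ i, σ (Q.rep i / Q.rep j) = τ (Q.rep i / Q.rep j)) : σ = τ := by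
  let E : IntermediateField ℚ K :=
    { AlgHom.equalizer σ τ with
      inv_mem' := by
        intro x hx
        show σ x⁻¹ = τ x⁻¹
        have hx' : σ x = τ x := hx
        rw [map_inv₀, map_inv₀, hx'] }
  have hE : ∀ x : K, x ∈ E ↔ σ x = τ x := fun x => Iff.rfl
  have hle : K ≤ E.map K.val := by
    conv_lhs => rw [← hQ]
    refine sup_le ?_ (IntermediateField.adjoin_le_iff.2 ?_)
    · intro x hx
      exact ⟨⟨x, h hx⟩, hk ⟨x, hx⟩, rfl⟩
    · rintro z ⟨i, i', hi', rfl⟩
      obtain ⟨b, hb, hr⟩ := rep_toC Q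
      rw [hr, hr, mul_div_mul_left _ _ hb]
      have hi'' : Q.rep i' ≠ 0 := by
        intro h0
        apply hi'
        rw [hr, h0]
        simp
      refine ⟨Q.rep i / Q.rep i', ?_, ?_⟩
      · show σ (Q.rep i / Q.rep i') = τ (Q.rep i / Q.rep i')
        have e : Q.rep i / Q.rep i' = (Q.rep i / Q.rep j) / (Q.rep i' / Q.rep j) := by
          field_simp
        rw [e, map_div₀, map_div₀ τ, hu, hu]
      · show ((Q.rep i / Q.rep i' : K) : ℂ) = _
        push_cast
        rfl
  ext x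
  obtain ⟨y, hy, hyx⟩ := hle x.2
  have : y = x := Subtype.ext hyx
  rw [← this]
  exact hy

/-- a good combination of the coordinates -/
lemma exists_comb {k K : IntermediateField ℚ ℂ} [NumberField K] (h : k ≤ K) {m : ℕ}
    (Q : ℙ K (Fin (m + 1) → K)) (hQ : fieldOf k (toC Q) = K) (j : Fin (m + 1))
    (hj : Q.rep j ≠ 0) (N : ℕ) (hN : m * (Module.finrank ℚ K) ^ 2 ≤ N) :
    ∃ t : ℕ, t ≤ N ∧ ∀ σ τ : K →ₐ[ℚ] ℂ, (∀ x : k, σ (IntermediateField.inclusion h x) =
      τ (IntermediateField.inclusion h x)) →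
      σ ((∑ i : Fin (m + 1), (t : K) ^ (i : ℕ) * Q.rep i) / Q.rep j) =
      τ ((∑ i : Fin (m + 1), (t : K) ^ (i : ℕ) * Q.rep i) / Q.rep j) → σ = τ := by
  classical
  let p : (K →ₐ[ℚ] ℂ) × (K →ₐ[ℚ] ℂ) → ℂ[X] := fun στ =>
    ∑ i : Fin (m + 1), C (στ.1 (Q.rep i / Q.rep j) - στ.2 (Q.rep i / Q.rep j)) * X ^ (i : ℕ)
  have hpc : ∀ στ (i : Fin (m + 1)), (p στ).coeff i =
      στ.1 (Q.rep i / Q.rep j) - στ.2 (Q.rep i / Q.rep j) := by
    intro στ i
    simp only [p, finsetSum_coeff, coeff_C_mul, coeff_X_pow, mul_ite, mul_one, mul_zero]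
    rw [Finset.sum_eq_single i]
    · simp
    · intro b _ hb
      rw [if_neg]
      intro hh
      exact hb (Fin.ext hh.symm)
    · intro h0
      exact absurd (Finset.mem_univ _) h0
  have hpd : ∀ στ, (p στ).natDegree ≤ m := by
    intro στ
    refine natDegree_sum_le_of_forall_le _ _ fun i _ => ?_
    refine (natDegree_C_mul_X_pow_le _ _).trans ?_
    have := i.2
    omega
  let P : Finset ((K →ₐ[ℚ] ℂ) × (K →ₐ[ℚ] ℂ)) := Finset.univ.filter fun στ => p στ ≠ 0
  have hprod : (∏ στ ∈ P, p στ) ≠ 0 := Finset.prod_ne_zero_iff.2 fun στ hστ =>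
    (Finset.mem_filter.1 hστ).2
  have hcard : Fintype.card (K →ₐ[ℚ] ℂ) = Module.finrank ℚ K := AlgHom.card ℚ K ℂ
  have hdeg : (∏ στ ∈ P, p στ).natDegree ≤ N := by
    refine (natDegree_prod_le _ _).trans ?_
    refine (Finset.sum_le_card_nsmul _ _ m fun στ _ => hpd στ).trans ?_
    rw [smul_eq_mul]
    refine le_trans (Nat.mul_le_mul_right m (Finset.card_le_univ P)) ?_
    rw [Fintype.card_prod, hcard]
    calc _ = m * (Module.finrank ℚ K) ^ 2 := by ring
      _ ≤ N := hN
  obtain ⟨t, ht, hne⟩ : ∃ t ∈ Finset.range (N + 1), (∏ στ ∈ P, p στ).eval ((t : ℕ) : ℂ) ≠ 0 := by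
    by_contra hc
    push Not at hc
    apply hprod
    refine eq_zero_of_natDegree_lt_card_of_eval_eq_zero' _
      ((Finset.range (N + 1)).image fun t : ℕ => (t : ℂ)) ?_ ?_
    · intro z hz
      obtain ⟨t, ht, rfl⟩ := Finset.mem_image.1 hz
      exact hc t ht
    · rw [Finset.card_image_of_injective _ Nat.cast_injective, Finset.card_range]
      omega
  refine ⟨t, by simpa [Nat.lt_succ_iff] using ht, fun σ τ hk hz => ?_⟩
  by_contra hστ
  have hp0 : p (σ, τ) ≠ 0 := by
    intro h0
    apply hστ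
    refine emb_eq h Q hQ j hj σ τ hk fun i => ?_
    have := hpc (σ, τ) i
    rw [h0, coeff_zero] at this
    exact (sub_eq_zero.1 this.symm)
  apply hne
  rw [eval_prod]
  refine Finset.prod_eq_zero (i := (σ, τ)) (Finset.mem_filter.2 ⟨Finset.mem_univ _, hp0⟩) ?_
  have e : ∀ ρ : K →ₐ[ℚ] ℂ, ρ ((∑ i : Fin (m + 1), (t : K) ^ (i : ℕ) * Q.rep i) / Q.rep j) =
      ∑ i : Fin (m + 1), ρ (Q.rep i / Q.rep j) * (t : ℂ) ^ (i : ℕ) := by
    intro ρ
    rw [Finset.sum_div, map_sum]
    refine Finset.sum_congr rfl fun i _ => ?_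
    rw [mul_div_assoc, map_mul, map_pow, map_natCast, mul_comm]
  rw [e, e] at hz
  simp only [p, eval_finsetSum, eval_mul, eval_C, eval_pow, eval_X]
  rw [← sub_eq_zero, ← Finset.sum_sub_distrib] at hz
  rw [← hz]
  exact Finset.sum_congr rfl fun i _ => by ring

/-- the discriminant of the field of definition -/
theorem disc_bound (k : IntermediateField ℚ ℂ) [NumberField k] (m r : ℕ) (hr : 1 ≤ r) :
    ∃ C : ℝ, 0 ≤ C ∧ ∀ (K : IntermediateField ℚ ℂ) (_ : NumberField K) (_ : k ≤ K)
      (Q : ℙ K (Fin (m + 1) → K)), fieldOf k (toC Q) = K →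
      Module.finrank ℚ K = r * Module.finrank ℚ k →
      logDisc K ≤ (2 * (r : ℝ) - 2) * height Q + C := by
  classical
  set N : ℕ := m * (r * Module.finrank ℚ k) ^ 2 with hN
  -- the forms
  let b : Fin ((N + 1) + (m + 1)) → Fin (m + 1) → k := fun p =>
    Fin.addCases (fun t : Fin (N + 1) => fun i : Fin (m + 1) => ((t : ℕ) : k) ^ (i : ℕ))
      (fun j : Fin (m + 1) => Pi.single j (1 : k)) p
  have hb0 : ∀ p, b p ≠ 0 := by
    intro p
    refine Fin.addCases (fun t => ?_) (fun j => ?_) p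
    · intro h
      have := congrFun h 0
      simp [b] at this
    · intro h
      have := congrFun h j
      simp [b] at this
  obtain ⟨A, hA, hAb⟩ := ratio_unif hb0
  set Dk := Real.log |(discr k : ℝ)| with hDk
  have hDk0 : 0 ≤ Dk := by
    rw [hDk]
    refine Real.log_nonneg ?_
    have h : NumberField.discr k ≠ 0 := NumberField.discr_ne_zero k
    have : 1 ≤ |NumberField.discr k| := Int.one_le_abs h
    exact_mod_cast this
  have hr1 : (1 : ℝ) ≤ r := by exact_mod_cast hr
  have hl2 : 0 ≤ Real.log 2 := Real.log_nonneg (by norm_num)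
  refine ⟨r * Dk + r * (Real.log 2 + 2 * A), by positivity, ?_⟩
  intro K hK h Q hQ hdeg
  obtain ⟨j, hj⟩ := Function.ne_iff.mp Q.rep_nonzero
  have hj' : Q.rep j ≠ 0 := hj
  obtain ⟨t, htN, ht⟩ := exists_comb h Q hQ j hj' N (by rw [hdeg])
  set z : K := (∑ i : Fin (m + 1), (t : K) ^ (i : ℕ) * Q.rep i) / Q.rep j with hz
  let _ : Algebra k K := (IntermediateField.inclusion h).toRingHom.toAlgebra
  have hst : IsScalarTower ℚ k K := IsScalarTower.of_algebraMap_eq fun x => by
    apply Subtype.ext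
    show ((algebraMap ℚ K x : K) : ℂ) = ((algebraMap ℚ k x : k) : ℂ)
    simp
  have hfd : FiniteDimensional ℚ K := hK.to_finiteDimensional
  have hfk : FiniteDimensional k K := FiniteDimensional.right ℚ k K
  have hfr : Module.finrank ℚ k * Module.finrank k K = Module.finrank ℚ K :=
    Module.finrank_mul_finrank ℚ k K
  have hk0 : 0 < Module.finrank ℚ k := Module.finrank_pos
  have hrK : Module.finrank k K = r := by
    rw [hdeg, mul_comm] at hfr
    exact Nat.eq_of_mul_eq_mul_right hk0 hfr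
  -- `z` is a generator
  let _ : Algebra k ℂ := k.val.toRingHom.toAlgebra
  have hzgen : IntermediateField.adjoin k {z} = ⊤ := by
    rw [Field.primitive_element_iff_algHom_eq_of_eval' k ℂ
      (fun x => IsAlgClosed.splits _) z]
    intro σ τ hστ
    have hcomm : ∀ ρ : K →ₐ[k] ℂ, ∀ x : k, ρ (IntermediateField.inclusion h x) = (x : ℂ) :=
      fun ρ x => ρ.commutes x
    have hq : ∀ ρ : K →ₐ[k] ℂ, ∀ x : ℚ, ρ.toRingHom (algebraMap ℚ K x) = algebraMap ℚ ℂ x := by
      intro ρ x
      have : algebraMap ℚ K x = (x : K) := by simp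
      rw [this, map_ratCast]
      simp
    let σ' : K →ₐ[ℚ] ℂ := { σ.toRingHom with commutes' := hq σ }
    let τ' : K →ₐ[ℚ] ℂ := { τ.toRingHom with commutes' := hq τ }
    have h1 := ht σ' τ' (fun x => (hcomm σ x).trans (hcomm τ x).symm) hστ
    ext x
    exact DFunLike.congr_fun h1 x
  have hzint : IsIntegral k z := Algebra.IsIntegral.isIntegral z
  have hadj : Algebra.adjoin k {z} = ⊤ := by
    have h1 := IntermediateField.adjoin_simple_toSubalgebra_of_isAlgebraic hzint.isAlgebraic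
    rw [hzgen] at h1
    rw [← h1]
    rfl
  let pb : PowerBasis k K := PowerBasis.ofAdjoinEqTop hzint hadj
  have hpb : pb.gen = z := PowerBasis.ofAdjoinEqTop_gen hzint hadj
  have hd := Pool.Agent.R407.disc_le_of_powerBasis pb
  rw [hpb, hrK] at hd
  -- the height of `z`
  have hn : (0 : ℝ) < Module.finrank ℚ K := n_pos K
  set n : ℝ := (Module.finrank ℚ K : ℝ) with hnn
  have hzh : mulHeight₁ z ≤ Real.exp (n * A) * mulHeight Q.rep := by
    have h1 := hAb K (Fin.castAdd (m + 1) ⟨t, by omega⟩) (Fin.natAdd (N + 1) j) Q.rep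
    have e1 : lin (up K b (Fin.castAdd (m + 1) ⟨t, by omega⟩)) Q.rep =
        ∑ i : Fin (m + 1), (t : K) ^ (i : ℕ) * Q.rep i := by
      have e3 : b (Fin.castAdd (m + 1) ⟨t, by omega⟩) =
          fun i : Fin (m + 1) => ((t : ℕ) : k) ^ (i : ℕ) := by
        simp only [b]
        exact Fin.addCases_left _
      unfold lin up
      refine Finset.sum_congr rfl fun i _ => ?_
      rw [e3]
      simp only [map_pow, map_natCast]
    have e2 : lin (up K b (Fin.natAdd (N + 1) j)) Q.rep = Q.rep j := by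
      unfold lin up
      simp only [b, Fin.addCases_right]
      rw [Finset.sum_eq_single j]
      · simp
      · intro i _ hi
        rw [Pi.single_eq_of_ne hi]
        simp
      · intro h0
        exact absurd (Finset.mem_univ _) h0
    rw [e1, e2] at h1
    exact h1
  have hz0 : 0 < mulHeight₁ z := mulHeight₁_pos z
  have hQ0 : 0 < mulHeight Q.rep := mulHeight_pos _
  have hlz : Real.log (mulHeight₁ z) ≤ n * A + Real.log (mulHeight Q.rep) := by
    have := Real.log_le_log hz0 hzh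
    rwa [Real.log_mul (Real.exp_pos _).ne' hQ0.ne', Real.log_exp] at this
  have hht : Real.log (mulHeight Q.rep) = n * height Q := by
    unfold height
    rw [mul_div_cancel₀ _ hn.ne']
    congr 1
    conv_rhs => rw [← Q.mk_rep]
    rw [Projectivization.mulHeight_mk]
  have hdk0 : (0 : ℝ) < |(discr k : ℝ)| := by
    have h : NumberField.discr k ≠ 0 := NumberField.discr_ne_zero k
    have : (discr k : ℝ) ≠ 0 := by exact_mod_cast h
    exact abs_pos.2 this
  have hdK0 : (0 : ℝ) < |(discr K : ℝ)| := by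
    have h : NumberField.discr K ≠ 0 := NumberField.discr_ne_zero K
    have : (discr K : ℝ) ≠ 0 := by exact_mod_cast h
    exact abs_pos.2 this
  have hld := Real.log_le_log hdK0 hd
  rw [Real.log_mul (by positivity) (by positivity), Real.log_pow, Real.log_pow,
    Real.log_mul (by positivity) (by positivity), Real.log_pow, Real.log_pow, ← hDk] at hld
  have hr' : ((r - 1 : ℕ) : ℝ) = r - 1 := by
    push_cast [Nat.cast_sub hr]
    ring
  rw [hr', ← hnn] at hld
  have hn1 : 1 ≤ n := by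
    have h1 : 1 ≤ Module.finrank ℚ K := Module.finrank_pos
    rw [hnn]
    exact_mod_cast h1
  unfold logDisc
  rw [div_le_iff₀ hn]
  have h5 : (r - 1 : ℝ) * (n * Real.log 2 + ((2 : ℕ) : ℝ) * Real.log (mulHeight₁ z)) ≤
      (r - 1) * (n * Real.log 2 + 2 * (n * A + n * height Q)) := by
    refine mul_le_mul_of_nonneg_left ?_ (by linarith)
    rw [← hht]
    push_cast
    linarith
  have h6 : (r : ℝ) * Dk ≤ n * (r * Dk) := by
    have : 0 ≤ (r : ℝ) * Dk := by positivity
    nlinarith
  have h7 : (r - 1 : ℝ) * (n * Real.log 2 + 2 * (n * A)) ≤ r * (n * Real.log 2 + 2 * (n * A)) := by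
    refine mul_le_mul_of_nonneg_right (by linarith) (by positivity)
  calc Real.log |(discr K : ℝ)| ≤ (r : ℝ) * Dk + (r - 1 : ℝ) *
        (n * Real.log 2 + ((2 : ℕ) : ℝ) * Real.log (mulHeight₁ z)) := hld
    _ ≤ (r : ℝ) * Dk + (r - 1) * (n * Real.log 2 + 2 * (n * A + n * height Q)) := by linarith
    _ = (r : ℝ) * Dk + (r - 1) * (n * Real.log 2 + 2 * (n * A)) +
        (2 * (r : ℝ) - 2) * height Q * n := by ring
    _ ≤ n * (r * Dk) + r * (n * Real.log 2 + 2 * (n * A)) +
        (2 * (r : ℝ) - 2) * height Q * n := by linarith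
    _ = _ := by ring

end Pool.Agent.N752.FD
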