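import Pool.Agent.TH905.VF.Mono
import Pool.Agent.TH905.VF.Gen
import Pool.Agent.R366.UC.Count

set_option autoImplicit false

/-!
The inequality for the points of Fermat intersections over all extensions of the field of the
coefficients, with absolute constants.
-/

namespace Pool.Agent.N752.FD

open NumberField IsDedekindDomain Height Pool.Agent.H691R3 LinearAlgebra.Projectivization
open scoped Classical
open Pool.Agent.H57R3.VJ (lin GenPos N1 sv NN Meets)
open Pool.Agent.R366.UC (up bad_unif height_unif up_ne_zero)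
open Pool.Agent.TH905.VF (prox proxI ld ht key' ht_pow N1_le proxI_le loc_nonneg prox_nonneg)

/-- the height of the values of the forms -/
theorem values_unif {k : Type} [Field k] [NumberField k] {n q : ℕ} (hq : n + 1 ≤ q)
    {a : Fin q → Fin (n + 1) → k} (ha0 : ∀ i, a i ≠ 0) :
    ∃ A : ℝ, 0 ≤ A ∧ ∀ (K : Type) [Field K] [NumberField K] [Algebra k K],
      ∀ x : Fin (n + 1) → K,
        logHeight (fun i => lin (up K a i) x) ≤ logHeight x + Module.finrank ℚ K * A := by
  have hb : (fun p : Fin q × Fin (n + 1) => a p.1 p.2) ≠ 0 := by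
    intro h
    apply ha0 ⟨0, by omega⟩
    ext j
    exact congrFun h (⟨0, by omega⟩, j)
  obtain ⟨A, hA, h⟩ := height_unif (fun p : Fin q × Fin (n + 1) => a p.1 p.2) hb
  have hlog : 0 ≤ Real.log ((n + 1 : ℕ) : ℝ) := Real.log_natCast_nonneg _
  refine ⟨Real.log ((n + 1 : ℕ) : ℝ) + A, by positivity, ?_⟩
  intro K _ _ _ x
  have h1 := logHeight_linearMap_apply_le
    (fun p : Fin q × Fin (n + 1) => algebraMap k K (a p.1 p.2)) x
  have h2 := h K
  have h3 : logHeight (fun p : Fin q × Fin (n + 1) => algebraMap k K (a p.1 p.2)) ≤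
      Module.finrank ℚ K * A := by
    rw [logHeight_eq_log_mulHeight]
    have h4 := Real.log_le_log (by positivity) h2
    rwa [Real.log_exp] at h4
  rw [NumberField.totalWeight_eq_finrank, Nat.card_eq_fintype_card, Fintype.card_fin] at h1
  have h5 : (fun i => lin (up K a i) x) = fun i => ∑ j, algebraMap k K (a i j) * x j := rfl
  rw [h5]
  have h6 : (Module.finrank ℚ K : ℝ) * (Real.log ((n + 1 : ℕ) : ℝ) + A) =
      Module.finrank ℚ K * Real.log ((n + 1 : ℕ) : ℝ) + Module.finrank ℚ K * A := by ring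
  rw [h6]
  linarith

/-- the inequality over all extensions -/
theorem ineq_unif {k : Type} [Field k] [NumberField k] {n q : ℕ} (hq : n + 1 ≤ q)
    {a : Fin q → Fin (n + 1) → k} (ha : GenPos a) :
    ∃ A : ℝ, 0 ≤ A ∧ ∀ (K : Type) [Field K] [NumberField K] [Algebra k K],
      ∀ x : Fin (n + 1) → K, x ≠ 0 → (∀ i, lin (up K a i) x ≠ 0) → ∀ e : ℕ, e ≠ 0 →
      ∀ (L : Type) [Field L] [NumberField L] [Algebra K L] (y : Fin q → L) (t : L), t ≠ 0 →
      (∀ i, y i ^ e = t * algebraMap K L (lin (up K a i) x)) →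
      ∀ S : Finset (HeightOneSpectrum (𝓞 K)), ∃ S' : Finset (FinitePlace K),
        N1 S' (up K a) x + ∑ v ∈ S', Real.log (NN v) + prox S y ≤
          ld K L + q * ht K y + ∑ v ∈ S, Real.log (Ideal.absNorm v.asIdeal) +
            Module.finrank ℚ K * A ∧
        e * ht K y ≤ logHeight x + Module.finrank ℚ K * A := by
  have ha0 : ∀ i, a i ≠ 0 := GenPos.ne_zero ha hq
  obtain ⟨A1, hA1, h1⟩ := bad_unif ha ha0
  obtain ⟨A2, hA2, h2⟩ := values_unif hq ha0
  refine ⟨A1 + A2, by positivity, ?_⟩
  intro K _ _ _ x hx hl e he L _ _ _ y t ht' hy S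
  obtain ⟨S0, hS0, hs1, hs2⟩ := h1 K
  have hn0 : (0 : ℝ) ≤ Module.finrank ℚ K := Nat.cast_nonneg _
  have hyne : ∀ i, y i ≠ 0 := by
    intro i h0
    have h3 := hy i
    rw [h0, zero_pow he] at h3
    have h4 : algebraMap K L (lin (up K a i) x) ≠ 0 := by
      rw [Ne, map_eq_zero]
      exact hl i
    exact mul_ne_zero ht' h4 h3.symm
  refine ⟨S0 ∪ S.image FinitePlace.mk, ?_, ?_⟩
  · have h3 : N1 (S0 ∪ S.image FinitePlace.mk) (up K a) x ≤
        ld K L + q * ht K y - prox S y := by
      refine N1_le hq (fun i => up_ne_zero (ha0 i)) _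
        (fun v hv => hs1 v fun h => hv (Finset.mem_union_left _ h))
        (fun v hv => hs2 v fun h => hv (Finset.mem_union_left _ h)) x hx hl _ fun R hR => ?_
      have h4 := key' (k := K) (by omega) e he (fun i => lin (up K a i) x) y hyne t ht' hy S R
        (fun v hv' => ⟨fun hvS => (hR v hv').1
          (Finset.mem_union_right _ (Finset.mem_image_of_mem _ hvS)), (hR v hv').2⟩)
      linarith
    have h5 : ∑ v ∈ S0 ∪ S.image FinitePlace.mk, Real.log (NN v) ≤
        ∑ v ∈ S0, Real.log (NN v) + ∑ v ∈ S, Real.log (Ideal.absNorm v.asIdeal) := by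
      have hL : ∀ v : FinitePlace K, 0 ≤ Real.log (NN v) := fun v => Real.log_natCast_nonneg _
      have h6 : ∑ v ∈ S.image FinitePlace.mk, Real.log (NN v) ≤
          ∑ v ∈ S, Real.log (Ideal.absNorm v.asIdeal) := by
        have h7 := Finset.sum_image_le_of_nonneg (s := S) (g := FinitePlace.mk)
          (f := fun v : FinitePlace K => Real.log (NN v)) (fun v _ => hL v)
        refine h7.trans (le_of_eq (Finset.sum_congr rfl fun v _ => ?_))
        show Real.log (Ideal.absNorm (FinitePlace.mk v).maximalIdeal.asIdeal) = _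
        rw [FinitePlace.maximalIdeal_mk]
      have h8 := Finset.sum_union_inter (s₁ := S0) (s₂ := S.image FinitePlace.mk)
        (f := fun v : FinitePlace K => Real.log (NN v))
      have h9 : 0 ≤ ∑ v ∈ S0 ∩ S.image FinitePlace.mk, Real.log (NN v) :=
        Finset.sum_nonneg fun v _ => hL v
      linarith
    have h6 : (Module.finrank ℚ K : ℝ) * (A1 + A2) =
      Module.finrank ℚ K * A1 + Module.finrank ℚ K * A2 := by ring
    have h7 : 0 ≤ (Module.finrank ℚ K : ℝ) * A2 := by positivity
    rw [h6]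
    linarith
  · have h4 := ht_pow (k := K) e (fun i => lin (up K a i) x) y t ht' hy
    rw [h4]
    have h5 := h2 K x
    have h6 : (Module.finrank ℚ K : ℝ) * (A1 + A2) =
      Module.finrank ℚ K * A1 + Module.finrank ℚ K * A2 := by ring
    have h7 : 0 ≤ (Module.finrank ℚ K : ℝ) * A1 := by positivity
    rw [h6]
    linarith

end Pool.Agent.N752.FD
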