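import Pool.Agent.N752.Shelf.BoundedDegreeHyperplanes

set_option autoImplicit false

/-!
The number of the points of degree `r` which violate the truncated inequality with discriminant
term, if the discriminant of the field of definition is bounded by a small power of the height.
-/

namespace Pool.Agent.N752.FD

open NumberField Finset
open scoped LinearAlgebra.Projectivization
open Pool.Agent.Results.MP_44a246_nt.BoundedDegreeHyperplanes
  (height value logDisc liftTo toC fieldOf logNorm truncated ExcK excK_count n_pos logNorm_nonneg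
    truncated_nonneg one_le_disc logDisc_nonneg)

variable {m q : ℕ}

/-- the exceptions with a bound for the discriminant -/
def ExcT (k : IntermediateField ℚ ℂ) (a : Fin q → Fin (m + 1) → k) (n : ℕ)
    (θ T c B : ℝ) : Set (ℙ ℂ (Fin (m + 1) → ℂ)) :=
  {P | ∃ (K : IntermediateField ℚ ℂ) (_ : NumberField K) (h : k ≤ K) (Q : ℙ K (Fin (m + 1) → K)),
    Module.finrank ℚ K = n ∧ toC Q = P ∧
    (∀ i, value (liftTo h a i) Q ≠ 0) ∧ height Q ≤ Real.log B ∧
    logDisc K ≤ T * Real.log B + c ∧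
    ∃ S : Finset (FinitePlace K), truncated S (liftTo h a) Q +
      (∑ v ∈ S, logNorm v) / Module.finrank ℚ K + logDisc K ≤ θ * height Q + c}

open Pool.Agent.W223.VD (Flds FieldExp) in
theorem upperT (k : IntermediateField ℚ ℂ) [NumberField k] (hm : 1 ≤ m) (hq : m + 1 ≤ q)
    (a : Fin q → Fin (m + 1) → k)
    (ha : ∀ I : Finset (Fin q), I.card = m + 1 → LinearIndependent k (fun i : I => a i))
    (n : ℕ) (hn1 : 1 ≤ n) {α : ℝ} (hα1 : 1 ≤ α)
    (hF : FieldExp n α) (θ T c δ : ℝ) (hT : 0 ≤ T) (hTθ : T ≤ θ) (hθq : θ < q) (hδ : 0 < δ) :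
    ∃ C : ℝ, ∀ B : ℝ, 1 ≤ B → (ExcT k a n θ T c B).Finite ∧
      ((ExcT k a n θ T c B).ncard : ℝ) ≤ C * B ^ ((n : ℝ) * (α * T + (θ - T)) + δ) := by
  classical
  have hθ : 0 ≤ θ := hT.trans hTθ
  obtain ⟨CF, hCF, hF⟩ := hF
  have hn0 : (0 : ℝ) < n := by exact_mod_cast (show 0 < n by omega)
  obtain ⟨J, hJ⟩ : ∃ J : ℕ, 2 * n * T / δ + 1 ≤ J := exists_nat_ge _
  have hJ0 : (0 : ℝ) < J := by
    have : 0 ≤ 2 * n * T / δ := by positivity
    linarith
  have hJpos : 0 < J := by exact_mod_cast hJ0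
  have hJδ : n * (T / J) ≤ δ / 2 := by
    have h1 : 2 * n * T / δ ≤ J := by linarith
    rw [div_le_iff₀ hδ] at h1
    rw [mul_div_assoc', div_le_iff₀ hJ0]
    linarith
  have hfr : ∀ j : Fin J, 0 ≤ (j : ℝ) / J ∧ (j : ℝ) / J ≤ 1 ∧ ((j : ℝ) + 1) / J ≤ 1 := by
    intro j
    have h1 : (j : ℝ) + 1 ≤ J := by exact_mod_cast j.2
    refine ⟨by positivity, ?_, ?_⟩
    · rw [div_le_one hJ0]; linarith
    · rw [div_le_one hJ0]; exact h1
  have hs : ∀ j : Fin J, 0 ≤ θ - T * ((j : ℝ) / J) ∧ θ - T * ((j : ℝ) / J) ≤ θ := by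
    intro j
    obtain ⟨h1, h2, -⟩ := hfr j
    have h3 : T * ((j : ℝ) / J) ≤ T * 1 := mul_le_mul_of_nonneg_left h2 hT
    have h4 : 0 ≤ T * ((j : ℝ) / J) := mul_nonneg hT h1
    constructor <;> linarith
  have key : ∀ j : Fin J, ∃ C : ℝ, 1 ≤ C ∧ ∀ (K : IntermediateField ℚ ℂ) (_ : NumberField K)
      (B : ℝ), 1 ≤ B → (ExcK k a (θ - T * ((j : ℝ) / J)) |c| B K).Finite ∧
        ((ExcK k a (θ - T * ((j : ℝ) / J)) |c| B K).ncard : ℝ) ≤
          (C * B ^ (θ - T * ((j : ℝ) / J) + δ / (2 * n))) ^ Module.finrank ℚ K := by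
    intro j
    obtain ⟨h1, h2⟩ := hs j
    exact excK_count k hm hq a ha _ |c| (δ / (2 * n)) h1 (by linarith) (by positivity)
  choose Cj hCj1 hCj using key
  refine ⟨∑ j : Fin J, CF * Real.exp (n * |c|) ^ α * Cj j ^ n, fun B hB => ?_⟩
  have hB0 : 0 < B := by linarith
  set L := Real.log B with hL
  have hL0 : 0 ≤ L := Real.log_nonneg hB
  let Y : Fin J → ℝ := fun j => Real.exp (n * |c|) * B ^ ((n : ℝ) * (((j : ℝ) + 1) / J * T))
  have hT1 : ∀ j, 1 ≤ Y j := by
    intro j
    refine one_le_mul_of_one_le_of_one_le (Real.one_le_exp (by positivity))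
      (Real.one_le_rpow hB (by positivity))
  have hsub : ExcT k a n θ T c B ⊆ ⋃ j : Fin J, ⋃ K ∈ (hF (Y j) (hT1 j)).1.toFinset,
      ExcK k a (θ - T * ((j : ℝ) / J)) |c| B K := by
    rintro P ⟨K, hK, h, Q, hKn, hQ, hv, hh, hdT, S, hS⟩
    set t := logDisc K with ht
    have ht0 : 0 ≤ t := logDisc_nonneg K
    have htr := truncated_nonneg S (liftTo h a) Q
    have hSn : 0 ≤ (∑ v ∈ S, logNorm v) / (Module.finrank ℚ K : ℝ) :=
      div_nonneg (Finset.sum_nonneg fun v _ => logNorm_nonneg v) (n_pos K).le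
    have hc := le_abs_self c
    have htL : t ≤ T * L + |c| := by linarith
    -- the index
    have hne : ((Finset.univ : Finset (Fin J)).filter fun j : Fin J =>
        (j : ℝ) / J * T * L ≤ t).Nonempty := by
      refine ⟨⟨0, hJpos⟩, ?_⟩
      rw [Finset.mem_filter]
      refine ⟨Finset.mem_univ _, ?_⟩
      simpa using ht0
    set j := ((Finset.univ : Finset (Fin J)).filter fun j : Fin J =>
        (j : ℝ) / J * T * L ≤ t).max' hne with hj
    have hj1 : (j : ℝ) / J * T * L ≤ t := (Finset.mem_filter.1 (Finset.max'_mem _ hne)).2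
    have hj2 : t ≤ ((j : ℝ) + 1) / J * T * L + |c| := by
      rcases Nat.lt_or_ge ((j : ℕ) + 1) J with h1 | h1
      · have h2 : ¬ (((j : ℕ) + 1 : ℕ) : ℝ) / J * T * L ≤ t := by
          intro h3
          have h4 : (⟨(j : ℕ) + 1, h1⟩ : Fin J) ∈ ((Finset.univ : Finset (Fin J)).filter
              fun j : Fin J => (j : ℝ) / J * T * L ≤ t) :=
            Finset.mem_filter.2 ⟨Finset.mem_univ _, h3⟩
          have h5 := Finset.le_max' _ _ h4
          rw [← hj] at h5
          have h6 : (j : ℕ) + 1 ≤ (j : ℕ) := h5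
          omega
        push Not at h2
        push_cast at h2
        have := abs_nonneg c
        linarith
      · have h2 : (j : ℕ) + 1 = J := le_antisymm j.2 h1
        have h3 : ((j : ℝ) + 1) / J = 1 := by
          rw [div_eq_one_iff_eq hJ0.ne']
          exact_mod_cast h2
        rw [h3, one_mul]
        exact htL
    rw [Set.mem_iUnion]
    refine ⟨j, ?_⟩
    rw [Set.mem_iUnion₂]
    refine ⟨K, ?_, hK, h, Q, hQ, hv, hh, S, ?_⟩
    · rw [Set.Finite.mem_toFinset]
      refine ⟨hK, hKn, ?_⟩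
      have h1 : |(NumberField.discr K : ℝ)| = Real.exp (n * t) := by
        rw [ht]
        unfold logDisc
        rw [hKn, mul_div_cancel₀ _ hn0.ne', Real.exp_log]
        have := one_le_disc K
        linarith
      rw [h1]
      show _ ≤ Real.exp (n * |c|) * B ^ ((n : ℝ) * (((j : ℝ) + 1) / J * T))
      rw [Real.rpow_def_of_pos hB0, ← Real.exp_add]
      refine Real.exp_le_exp.2 ?_
      have := mul_le_mul_of_nonneg_left hj2 hn0.le
      rw [← hL]
      linarith
    · have h2 : (j : ℝ) / J * T * height Q ≤ (j : ℝ) / J * T * L :=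
        mul_le_mul_of_nonneg_left hh (mul_nonneg (hfr j).1 hT)
      have h3 : (θ - T * ((j : ℝ) / J)) * height Q =
          θ * height Q - (j : ℝ) / J * T * height Q := by ring
      rw [h3]
      linarith
  have hfinK : ∀ j : Fin J, ∀ K ∈ (hF (Y j) (hT1 j)).1.toFinset,
      (ExcK k a (θ - T * ((j : ℝ) / J)) |c| B K).Finite ∧
        ((ExcK k a (θ - T * ((j : ℝ) / J)) |c| B K).ncard : ℝ) ≤
          (Cj j * B ^ (θ - T * ((j : ℝ) / J) + δ / (2 * n))) ^ n := by
    intro j K hK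
    rw [Set.Finite.mem_toFinset] at hK
    obtain ⟨hK1, hK2, -⟩ := hK
    have := hCj j K hK1 B hB
    rw [hK2] at this
    exact this
  have hfin : (⋃ j : Fin J, ⋃ K ∈ (hF (Y j) (hT1 j)).1.toFinset,
      ExcK k a (θ - T * ((j : ℝ) / J)) |c| B K).Finite :=
    Set.finite_iUnion fun j => Set.Finite.biUnion (Finset.finite_toSet _)
      fun K hK => (hfinK j K hK).1
  refine ⟨hfin.subset hsub, ?_⟩
  have h1 : ((ExcT k a n θ T c B).ncard : ℝ) ≤
      ∑ j : Fin J, ∑ K ∈ (hF (Y j) (hT1 j)).1.toFinset,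
        ((ExcK k a (θ - T * ((j : ℝ) / J)) |c| B K).ncard : ℝ) := by
    have h2 := (Set.ncard_le_ncard hsub hfin).trans (Set.ncard_iUnion_le_of_fintype _)
    refine (Nat.cast_le.2 h2).trans ?_
    push_cast
    refine Finset.sum_le_sum fun j _ => ?_
    have := Finset.set_ncard_biUnion_le (hF (Y j) (hT1 j)).1.toFinset
      fun K => ExcK k a (θ - T * ((j : ℝ) / J)) |c| B K
    exact_mod_cast this
  refine h1.trans ?_
  rw [Finset.sum_mul]
  refine Finset.sum_le_sum fun j _ => ?_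
  obtain ⟨hj0, hj1, hj2⟩ := hfr j
  calc ∑ K ∈ (hF (Y j) (hT1 j)).1.toFinset,
        ((ExcK k a (θ - T * ((j : ℝ) / J)) |c| B K).ncard : ℝ)
      ≤ ∑ _K ∈ (hF (Y j) (hT1 j)).1.toFinset,
          (Cj j * B ^ (θ - T * ((j : ℝ) / J) + δ / (2 * n))) ^ n :=
        Finset.sum_le_sum fun K hK => (hfinK j K hK).2
    _ = ((Flds n (Y j)).ncard : ℝ) * (Cj j * B ^ (θ - T * ((j : ℝ) / J) + δ / (2 * n))) ^ n := by
        have e := Set.ncard_eq_toFinset_card (Flds n (Y j)) (hF (Y j) (hT1 j)).1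
        rw [Finset.sum_const, nsmul_eq_mul, ← e]
    _ ≤ (CF * Y j ^ α) * (Cj j * B ^ (θ - T * ((j : ℝ) / J) + δ / (2 * n))) ^ n := by
        refine mul_le_mul_of_nonneg_right (hF (Y j) (hT1 j)).2 ?_
        have := hCj1 j
        positivity
    _ = CF * Real.exp (n * |c|) ^ α * Cj j ^ n *
          (B ^ ((n : ℝ) * (((j : ℝ) + 1) / J * T) * α) *
            B ^ ((θ - T * ((j : ℝ) / J) + δ / (2 * n)) * n)) := by
        show (CF * (Real.exp (n * |c|) * B ^ ((n : ℝ) * (((j : ℝ) + 1) / J * T))) ^ α) * _ = _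
        rw [Real.mul_rpow (Real.exp_pos _).le (by positivity), mul_pow,
          ← Real.rpow_mul hB0.le,
          ← Real.rpow_natCast (B ^ (θ - T * ((j : ℝ) / J) + δ / (2 * n))),
          ← Real.rpow_mul hB0.le]
        ring
    _ ≤ CF * Real.exp (n * |c|) ^ α * Cj j ^ n * B ^ ((n : ℝ) * (α * T + (θ - T)) + δ) := by
        have hpos : 0 ≤ CF * Real.exp (n * |c|) ^ α * Cj j ^ n := by
          have := hCj1 j
          positivity
        refine mul_le_mul_of_nonneg_left ?_ hpos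
        rw [← Real.rpow_add hB0]
        refine Real.rpow_le_rpow_of_exponent_le hB ?_
        have e1 : (θ - T * ((j : ℝ) / J) + δ / (2 * n)) * n =
            n * (θ - T * ((j : ℝ) / J)) + δ / 2 := by
          field_simp
        rw [e1]
        have e2 : ((j : ℝ) + 1) / J = (j : ℝ) / J + 1 / J := by ring
        have e3 : (n : ℝ) * (((j : ℝ) + 1) / J * T) * α + (n * (θ - T * ((j : ℝ) / J))) =
            n * T * ((((j : ℝ) + 1) / J) * (α - 1)) + n * θ + n * (T / J) := by
          rw [e2]; ring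
        have e4 : n * T * ((((j : ℝ) + 1) / J) * (α - 1)) ≤ n * T * (1 * (α - 1)) := by
          refine mul_le_mul_of_nonneg_left ?_ (by positivity)
          exact mul_le_mul_of_nonneg_right hj2 (by linarith)
        nlinarith

end Pool.Agent.N752.FD
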