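import Pool.Agent.N752.FD.Slice

set_option autoImplicit false

/-!
The number of the points of degree `r` which violate the truncated inequality with discriminant
term, if the discriminant of the field of definition is bounded by a small power of the height, with
the exponent of `AllFieldsAllDegrees`.
-/

namespace Pool.Agent.N752.FD

open NumberField Finset
open scoped LinearAlgebra.Projectivization
open Pool.Agent.Results.MP_44a246_nt.BoundedDegreeHyperplanes
  (height value logDisc liftTo toC fieldOf logNorm truncated ExcK n_pos logNorm_nonneg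
    truncated_nonneg one_le_disc logDisc_nonneg)

open Pool.Agent.Results.MP_9ec3f0_nt in
/-- the exponent is monotone and a contraction -/
lemma expo_lip {m q : ℕ} (hm : 1 ≤ m) (hq : m + 1 ≤ q) {s t : ℝ} (hst : s ≤ t) :
    AllFieldsAllDegrees.expo m q t ≤ AllFieldsAllDegrees.expo m q s + (t - s) := by
  unfold AllFieldsAllDegrees.expo
  have hm1 : (1 : ℝ) ≤ m := by exact_mod_cast hm
  have hq1 : (m : ℝ) + 1 ≤ q := by exact_mod_cast hq
  have hp : 0 ≤ ((q - m).choose (m + 1) : ℝ) / (q.choose (m + 1) : ℝ) := by positivity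
  have hts : 0 ≤ t - s := by linarith
  have hqq : (0 : ℝ) < (q : ℝ) * ((q : ℝ) - 1) := by nlinarith
  have h1 : t * (1 - ((q - m).choose (m + 1) : ℝ) / (q.choose (m + 1) : ℝ)) ≤
      s * (1 - ((q - m).choose (m + 1) : ℝ) / (q.choose (m + 1) : ℝ)) + (t - s) := by
    nlinarith
  have h2 : ((m : ℝ) + 1) * (1 - (m : ℝ) * ((q : ℝ) - t) / ((q : ℝ) * ((q : ℝ) - 1))) ≤
      ((m : ℝ) + 1) * (1 - (m : ℝ) * ((q : ℝ) - s) / ((q : ℝ) * ((q : ℝ) - 1))) + (t - s) := by
    have h3 : ((m : ℝ) + 1) * m / ((q : ℝ) * ((q : ℝ) - 1)) ≤ 1 := by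
      rw [div_le_one hqq]
      nlinarith
    have h4 : ((m : ℝ) + 1) * (1 - (m : ℝ) * ((q : ℝ) - t) / ((q : ℝ) * ((q : ℝ) - 1))) =
        ((m : ℝ) + 1) * (1 - (m : ℝ) * ((q : ℝ) - s) / ((q : ℝ) * ((q : ℝ) - 1))) +
          ((m : ℝ) + 1) * m / ((q : ℝ) * ((q : ℝ) - 1)) * (t - s) := by
      field_simp
      ring
    rw [h4]
    nlinarith
  rw [← min_add_add_right]
  exact min_le_min h1 h2

variable {m q : ℕ}

open Pool.Agent.Results.MP_9ec3f0_nt in
/-- the exceptions over one field -/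
lemma excK_count' (k : IntermediateField ℚ ℂ) [NumberField k] (hm : 1 ≤ m) (hq : m + 1 ≤ q)
    (a : Fin q → Fin (m + 1) → k)
    (ha : ∀ I : Finset (Fin q), I.card = m + 1 → LinearIndependent k (fun i : I => a i))
    (θ c δ : ℝ) (hθ : 0 ≤ θ) (hθq : θ < q) (hδ : 0 < δ) :
    ∃ C : ℝ, 1 ≤ C ∧ ∀ (K : IntermediateField ℚ ℂ) (_ : NumberField K) (B : ℝ), 1 ≤ B →
      (ExcK k a θ c B K).Finite ∧
        ((ExcK k a θ c B K).ncard : ℝ) ≤
          (C * B ^ (AllFieldsAllDegrees.expo m q θ + δ)) ^ Module.finrank ℚ K := by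
  obtain ⟨h1, -⟩ := AllFieldsAllDegrees.result k m q hm hq a ha
  obtain ⟨-, C, hC, h2⟩ := h1 θ c δ hθ hθq hδ
  refine ⟨max C 1, le_max_right _ _, fun K hK B hB => ?_⟩
  by_cases h : k ≤ K
  · let _ : Algebra k K := (IntermediateField.inclusion h).toRingHom.toAlgebra
    obtain ⟨h3, h4⟩ := h2 K B hB
    have hsub : ExcK k a θ c B K ⊆ toC '' (AllFieldsAllDegrees.Exc K a θ c B) := by
      rintro P ⟨_, h', Q, hQ, hv, hh, S, hS⟩
      exact ⟨Q, ⟨⟨hv, hh⟩, S, hS⟩, hQ⟩
    have hfin : (AllFieldsAllDegrees.Exc K a θ c B).Finite := h3.subset fun Q hQ => hQ.1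
    refine ⟨(hfin.image _).subset hsub, ?_⟩
    have h5 : ((ExcK k a θ c B K).ncard : ℝ) ≤ ((AllFieldsAllDegrees.Exc K a θ c B).ncard : ℝ) := by
      exact_mod_cast (Set.ncard_le_ncard hsub (hfin.image _)).trans (Set.ncard_image_le hfin)
    refine (h5.trans h4).trans ?_
    have hB0 : 0 < B := by linarith
    refine pow_le_pow_left₀ (by positivity) ?_ _
    exact mul_le_mul_of_nonneg_right (le_max_left _ _) (by positivity)
  · have hempty : ExcK k a θ c B K = ∅ := by
      ext P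
      simp only [Set.mem_empty_iff_false, iff_false]
      rintro ⟨_, h', -⟩
      exact h h'
    rw [hempty]
    refine ⟨Set.finite_empty, ?_⟩
    rw [Set.ncard_empty, Nat.cast_zero]
    have hB0 : 0 < B := by linarith
    positivity

open Pool.Agent.W223.VD (Flds FieldExp) in
open Pool.Agent.Results.MP_9ec3f0_nt.AllFieldsAllDegrees (expo) in
theorem upperE (k : IntermediateField ℚ ℂ) [NumberField k] (hm : 1 ≤ m) (hq : m + 1 ≤ q)
    (a : Fin q → Fin (m + 1) → k)
    (ha : ∀ I : Finset (Fin q), I.card = m + 1 → LinearIndependent k (fun i : I => a i))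
    (n : ℕ) (hn1 : 1 ≤ n) {α : ℝ} (hα1 : 1 ≤ α)
    (hF : FieldExp n α) (θ T c δ : ℝ) (hT : 0 ≤ T) (hTθ : T ≤ θ) (hθq : θ < q) (hδ : 0 < δ) :
    ∃ C : ℝ, ∀ B : ℝ, 1 ≤ B → (ExcT k a n θ T c B).Finite ∧
      ((ExcT k a n θ T c B).ncard : ℝ) ≤ C * B ^ ((n : ℝ) * (α * T + expo m q (θ - T)) + δ) := by
  classical
  have hθ : 0 ≤ θ := hT.trans hTθ
  obtain ⟨CF, hCF, hF⟩ := hF
  have hn0 : (0 : ℝ) < n := by exact_mod_cast (show 0 < n by omega)
  obtain ⟨J, hJ⟩ : ∃ J : ℕ, 2 * n * T / δ + 1 ≤ J := exists_nat_ge _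
  have hJ0 : (0 : ℝ) < J := by
    have : 0 ≤ 2 * n * T / δ := by positivity
    linarith
  have hJpos : 0 < J := by exact_mod_cast hJ0
  have hJδ : n * (T / J) ≤ δ / 2 := by
    have h1 : 2 * n * T / δ ≤ J := by linarith
    rw [div_le_iff₀ hδ] at h1
    rw [mul_div_assoc', div_le_iff₀ hJ0]
    linarith
  have hfr : ∀ j : Fin J, 0 ≤ (j : ℝ) / J ∧ (j : ℝ) / J ≤ 1 ∧ ((j : ℝ) + 1) / J ≤ 1 := by
    intro j
    have h1 : (j : ℝ) + 1 ≤ J := by exact_mod_cast j.2
    refine ⟨by positivity, ?_, ?_⟩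
    · rw [div_le_one hJ0]; linarith
    · rw [div_le_one hJ0]; exact h1
  have hs : ∀ j : Fin J, 0 ≤ θ - T * ((j : ℝ) / J) ∧ θ - T * ((j : ℝ) / J) ≤ θ := by
    intro j
    obtain ⟨h1, h2, -⟩ := hfr j
    have h3 : T * ((j : ℝ) / J) ≤ T * 1 := mul_le_mul_of_nonneg_left h2 hT
    have h4 : 0 ≤ T * ((j : ℝ) / J) := mul_nonneg hT h1
    constructor <;> linarith
  have key : ∀ j : Fin J, ∃ C : ℝ, 1 ≤ C ∧ ∀ (K : IntermediateField ℚ ℂ) (_ : NumberField K)
      (B : ℝ), 1 ≤ B → (ExcK k a (θ - T * ((j : ℝ) / J)) |c| B K).Finite ∧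
        ((ExcK k a (θ - T * ((j : ℝ) / J)) |c| B K).ncard : ℝ) ≤
          (C * B ^ (expo m q (θ - T * ((j : ℝ) / J)) + δ / (2 * n))) ^ Module.finrank ℚ K := by
    intro j
    obtain ⟨h1, h2⟩ := hs j
    exact excK_count' k hm hq a ha _ |c| (δ / (2 * n)) h1 (by linarith) (by positivity)
  choose Cj hCj1 hCj using key
  refine ⟨∑ j : Fin J, CF * Real.exp (n * |c|) ^ α * Cj j ^ n, fun B hB => ?_⟩
  have hB0 : 0 < B := by linarith
  set L := Real.log B with hL
  have hL0 : 0 ≤ L := Real.log_nonneg hB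
  let Y : Fin J → ℝ := fun j => Real.exp (n * |c|) * B ^ ((n : ℝ) * (((j : ℝ) + 1) / J * T))
  have hT1 : ∀ j, 1 ≤ Y j := by
    intro j
    refine one_le_mul_of_one_le_of_one_le (Real.one_le_exp (by positivity))
      (Real.one_le_rpow hB (by positivity))
  have hsub : ExcT k a n θ T c B ⊆ ⋃ j : Fin J, ⋃ K ∈ (hF (Y j) (hT1 j)).1.toFinset,
      ExcK k a (θ - T * ((j : ℝ) / J)) |c| B K := by
    rintro P ⟨K, hK, h, Q, hKn, hQ, hv, hh, hdT, S, hS⟩
    set t := logDisc K with ht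
    have ht0 : 0 ≤ t := logDisc_nonneg K
    have htr := truncated_nonneg S (liftTo h a) Q
    have hSn : 0 ≤ (∑ v ∈ S, logNorm v) / (Module.finrank ℚ K : ℝ) :=
      div_nonneg (Finset.sum_nonneg fun v _ => logNorm_nonneg v) (n_pos K).le
    have hc := le_abs_self c
    have htL : t ≤ T * L + |c| := by linarith
    -- the index
    have hne : ((Finset.univ : Finset (Fin J)).filter fun j : Fin J =>
        (j : ℝ) / J * T * L ≤ t).Nonempty := by
      refine ⟨⟨0, hJpos⟩, ?_⟩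
      rw [Finset.mem_filter]
      refine ⟨Finset.mem_univ _, ?_⟩
      simpa using ht0
    set j := ((Finset.univ : Finset (Fin J)).filter fun j : Fin J =>
        (j : ℝ) / J * T * L ≤ t).max' hne with hj
    have hj1 : (j : ℝ) / J * T * L ≤ t := (Finset.mem_filter.1 (Finset.max'_mem _ hne)).2
    have hj2 : t ≤ ((j : ℝ) + 1) / J * T * L + |c| := by
      rcases Nat.lt_or_ge ((j : ℕ) + 1) J with h1 | h1
      · have h2 : ¬ (((j : ℕ) + 1 : ℕ) : ℝ) / J * T * L ≤ t := by
          intro h3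
          have h4 : (⟨(j : ℕ) + 1, h1⟩ : Fin J) ∈ ((Finset.univ : Finset (Fin J)).filter
              fun j : Fin J => (j : ℝ) / J * T * L ≤ t) :=
            Finset.mem_filter.2 ⟨Finset.mem_univ _, h3⟩
          have h5 := Finset.le_max' _ _ h4
          rw [← hj] at h5
          have h6 : (j : ℕ) + 1 ≤ (j : ℕ) := h5
          omega
        push Not at h2
        push_cast at h2
        have := abs_nonneg c
        linarith
      · have h2 : (j : ℕ) + 1 = J := le_antisymm j.2 h1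
        have h3 : ((j : ℝ) + 1) / J = 1 := by
          rw [div_eq_one_iff_eq hJ0.ne']
          exact_mod_cast h2
        rw [h3, one_mul]
        exact htL
    rw [Set.mem_iUnion]
    refine ⟨j, ?_⟩
    rw [Set.mem_iUnion₂]
    refine ⟨K, ?_, hK, h, Q, hQ, hv, hh, S, ?_⟩
    · rw [Set.Finite.mem_toFinset]
      refine ⟨hK, hKn, ?_⟩
      have h1 : |(NumberField.discr K : ℝ)| = Real.exp (n * t) := by
        rw [ht]
        unfold logDisc
        rw [hKn, mul_div_cancel₀ _ hn0.ne', Real.exp_log]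
        have := one_le_disc K
        linarith
      rw [h1]
      show _ ≤ Real.exp (n * |c|) * B ^ ((n : ℝ) * (((j : ℝ) + 1) / J * T))
      rw [Real.rpow_def_of_pos hB0, ← Real.exp_add]
      refine Real.exp_le_exp.2 ?_
      have := mul_le_mul_of_nonneg_left hj2 hn0.le
      rw [← hL]
      linarith
    · have h2 : (j : ℝ) / J * T * height Q ≤ (j : ℝ) / J * T * L :=
        mul_le_mul_of_nonneg_left hh (mul_nonneg (hfr j).1 hT)
      have h3 : (θ - T * ((j : ℝ) / J)) * height Q =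
          θ * height Q - (j : ℝ) / J * T * height Q := by ring
      rw [h3]
      linarith
  have hfinK : ∀ j : Fin J, ∀ K ∈ (hF (Y j) (hT1 j)).1.toFinset,
      (ExcK k a (θ - T * ((j : ℝ) / J)) |c| B K).Finite ∧
        ((ExcK k a (θ - T * ((j : ℝ) / J)) |c| B K).ncard : ℝ) ≤
          (Cj j * B ^ (expo m q (θ - T * ((j : ℝ) / J)) + δ / (2 * n))) ^ n := by
    intro j K hK
    rw [Set.Finite.mem_toFinset] at hK
    obtain ⟨hK1, hK2, -⟩ := hK
    have := hCj j K hK1 B hB
    rw [hK2] at this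
    exact this
  have hfin : (⋃ j : Fin J, ⋃ K ∈ (hF (Y j) (hT1 j)).1.toFinset,
      ExcK k a (θ - T * ((j : ℝ) / J)) |c| B K).Finite :=
    Set.finite_iUnion fun j => Set.Finite.biUnion (Finset.finite_toSet _)
      fun K hK => (hfinK j K hK).1
  refine ⟨hfin.subset hsub, ?_⟩
  have h1 : ((ExcT k a n θ T c B).ncard : ℝ) ≤
      ∑ j : Fin J, ∑ K ∈ (hF (Y j) (hT1 j)).1.toFinset,
        ((ExcK k a (θ - T * ((j : ℝ) / J)) |c| B K).ncard : ℝ) := by
    have h2 := (Set.ncard_le_ncard hsub hfin).trans (Set.ncard_iUnion_le_of_fintype _)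
    refine (Nat.cast_le.2 h2).trans ?_
    push_cast
    refine Finset.sum_le_sum fun j _ => ?_
    have := Finset.set_ncard_biUnion_le (hF (Y j) (hT1 j)).1.toFinset
      fun K => ExcK k a (θ - T * ((j : ℝ) / J)) |c| B K
    exact_mod_cast this
  refine h1.trans ?_
  rw [Finset.sum_mul]
  refine Finset.sum_le_sum fun j _ => ?_
  obtain ⟨hj0, hj1, hj2⟩ := hfr j
  calc ∑ K ∈ (hF (Y j) (hT1 j)).1.toFinset,
        ((ExcK k a (θ - T * ((j : ℝ) / J)) |c| B K).ncard : ℝ)
      ≤ ∑ _K ∈ (hF (Y j) (hT1 j)).1.toFinset,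
          (Cj j * B ^ (expo m q (θ - T * ((j : ℝ) / J)) + δ / (2 * n))) ^ n :=
        Finset.sum_le_sum fun K hK => (hfinK j K hK).2
    _ = ((Flds n (Y j)).ncard : ℝ) * (Cj j * B ^ (expo m q (θ - T * ((j : ℝ) / J)) + δ / (2 * n))) ^ n := by
        have e := Set.ncard_eq_toFinset_card (Flds n (Y j)) (hF (Y j) (hT1 j)).1
        rw [Finset.sum_const, nsmul_eq_mul, ← e]
    _ ≤ (CF * Y j ^ α) * (Cj j * B ^ (expo m q (θ - T * ((j : ℝ) / J)) + δ / (2 * n))) ^ n := by
        refine mul_le_mul_of_nonneg_right (hF (Y j) (hT1 j)).2 ?_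
        have := hCj1 j
        positivity
    _ = CF * Real.exp (n * |c|) ^ α * Cj j ^ n *
          (B ^ ((n : ℝ) * (((j : ℝ) + 1) / J * T) * α) *
            B ^ ((expo m q (θ - T * ((j : ℝ) / J)) + δ / (2 * n)) * n)) := by
        show (CF * (Real.exp (n * |c|) * B ^ ((n : ℝ) * (((j : ℝ) + 1) / J * T))) ^ α) * _ = _
        rw [Real.mul_rpow (Real.exp_pos _).le (by positivity), mul_pow,
          ← Real.rpow_mul hB0.le,
          ← Real.rpow_natCast (B ^ (expo m q (θ - T * ((j : ℝ) / J)) + δ / (2 * n))),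
          ← Real.rpow_mul hB0.le]
        ring
    _ ≤ CF * Real.exp (n * |c|) ^ α * Cj j ^ n *
          B ^ ((n : ℝ) * (α * T + expo m q (θ - T)) + δ) := by
        have hpos : 0 ≤ CF * Real.exp (n * |c|) ^ α * Cj j ^ n := by
          have := hCj1 j
          positivity
        refine mul_le_mul_of_nonneg_left ?_ hpos
        rw [← Real.rpow_add hB0]
        refine Real.rpow_le_rpow_of_exponent_le hB ?_
        have h5 : expo m q (θ - T * ((j : ℝ) / J)) ≤ expo m q (θ - T) +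
            (T - T * ((j : ℝ) / J)) := by
          have h6 : θ - T ≤ θ - T * ((j : ℝ) / J) := by
            have : T * ((j : ℝ) / J) ≤ T * 1 := mul_le_mul_of_nonneg_left hj1 hT
            linarith
          have h7 := expo_lip hm hq h6
          have h8 : (θ - T * ((j : ℝ) / J) - (θ - T)) = T - T * ((j : ℝ) / J) := by ring
          rw [h8] at h7
          exact h7
        set E := expo m q (θ - T) with hE
        have e1 : (expo m q (θ - T * ((j : ℝ) / J)) + δ / (2 * n)) * n =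
            n * expo m q (θ - T * ((j : ℝ) / J)) + δ / 2 := by
          field_simp
        rw [e1]
        have h9 := mul_le_mul_of_nonneg_left h5 hn0.le
        have e2 : ((j : ℝ) + 1) / J = (j : ℝ) / J + 1 / J := by ring
        have e3 : (n : ℝ) * (((j : ℝ) + 1) / J * T) * α + n * (E + (T - T * ((j : ℝ) / J))) =
            n * T * ((((j : ℝ) + 1) / J) * (α - 1)) + n * (E + T) + n * (T / J) := by
          rw [e2]; ring
        have e4 : n * T * ((((j : ℝ) + 1) / J) * (α - 1)) ≤ n * T * (1 * (α - 1)) := by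
          refine mul_le_mul_of_nonneg_left ?_ (by positivity)
          exact mul_le_mul_of_nonneg_right hj2 (by linarith)
        nlinarith

end Pool.Agent.N752.FD
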