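import Pool.Agent.N752.FD.Fermat
import Pool.Agent.TH905.VF.Stk
import Pool.Agent.TH905.VF.Abs

set_option autoImplicit false

/-!
The inequality for the integral points of root stacks of projective spaces along hyperplanes, over
all extensions of the field of the coefficients, with absolute constants.
-/

namespace Pool.Agent.N752.FD

open NumberField IsDedekindDomain Height Pool.Agent.H691R3
open scoped Classical
open Pool.Agent.H57R3.VJ (lin N1 sv NN Meets)
open Pool.Agent.R366.UC (up height_unif up_ne_zero)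
open Pool.Agent.TH905.VF (lamL nJ ld fv_lt_ext finrank_pos' lamL_support over_finite keyW)

section one

variable {L : Type*} [Field L] [NumberField L]

lemma sup_finite {ι : Type*} [Finite ι] {z : ι → L} (hz : z ≠ 0) :
    {v : HeightOneSpectrum (𝓞 L) | (⨆ j, fv v (z j)) ≠ 1}.Finite := by
  obtain ⟨j0, hj0⟩ := Function.ne_iff.1 hz
  have hne : Nonempty ι := ⟨j0⟩
  have h1 : (⋃ j ∈ {j : ι | z j ≠ 0}, {v : HeightOneSpectrum (𝓞 L) | fv v (z j) ≠ 1}).Finite :=
    Set.Finite.biUnion (Set.toFinite _) fun j hj => fv_support_finite hj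
  refine h1.subset ?_
  intro v hv
  by_contra hc
  apply hv
  simp only [Set.mem_iUnion, Set.mem_ofPred_eq, not_exists, not_not] at hc
  obtain ⟨j, hj⟩ := exists_eq_ciSup_of_finite (f := fun j => fv v (z j))
  have hpos : 0 < fv v (z j0) := (fv v).pos hj0
  have hle : fv v (z j0) ≤ ⨆ j, fv v (z j) :=
    le_ciSup (f := fun j => fv v (z j)) (Set.finite_range _).bddAbove j0
  rw [← hj] at hle ⊢
  refine hc j ?_
  intro h0
  rw [h0, map_zero] at hle
  linarith

lemma sup_pos' {ι : Type*} [Finite ι] (f : AbsoluteValue L ℝ) {z : ι → L} (hz : z ≠ 0) :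
    0 < ⨆ j, f (z j) := by
  obtain ⟨j0, hj0⟩ := Function.ne_iff.1 hz
  exact (f.pos hj0).trans_le (le_ciSup (f := fun j => f (z j)) (Set.finite_range _).bddAbove j0)

/-- the height in terms of a finite set of primes -/
lemma logHeight_sum {ι : Type*} [Finite ι] (y : ι → L) (hy : y ≠ 0)
    (T : Finset (HeightOneSpectrum (𝓞 L))) (hT : ∀ v, v ∉ T → (⨆ j, fv v (y j)) = 1) :
    logHeight y = ∑ w : InfinitePlace L, (w.mult : ℝ) * Real.log (⨆ j, w.1 (y j)) +
      ∑ v ∈ T, Real.log (⨆ j, fv v (y j)) := by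
  have h := NumberField.mulHeight_eq (K := L) hy
  have h1 : ∏ᶠ w : FinitePlace L, ⨆ i, w (y i) =
      ∏ᶠ v : HeightOneSpectrum (𝓞 L), ⨆ i, fv v (y i) := by
    rw [← finprod_comp_equiv (FinitePlace.equivHeightOneSpectrum (K := L)).symm]
    rfl
  have h2 : ∏ᶠ v : HeightOneSpectrum (𝓞 L), ⨆ i, fv v (y i) = ∏ v ∈ T, ⨆ i, fv v (y i) := by
    refine finprod_eq_prod_of_mulSupport_subset _ ?_
    intro v hv
    by_contra hc
    rw [Finset.mem_coe] at hc
    exact hv (hT v hc)
  rw [h1, h2] at h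
  rw [logHeight_eq_log_mulHeight, h, Real.log_mul, Real.log_prod, Real.log_prod]
  · congr 1
    refine Finset.sum_congr rfl fun w _ => ?_
    rw [Real.log_pow]
    rfl
  · intro v _
    exact (sup_pos' (fv v) hy).ne'
  · intro w _
    exact (pow_pos (sup_pos' w.1 hy) _).ne'
  · exact (Finset.prod_pos fun w _ => pow_pos (sup_pos' w.1 hy) _).ne'
  · exact (Finset.prod_pos fun v _ => sup_pos' (fv v) hy).ne'

/-- the local height of the hyperplane `b = 0` for the absolute value `f` -/
noncomputable def lamf {n : ℕ} (f : AbsoluteValue L ℝ) (b x : Fin (n + 1) → L) : ℝ :=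
  Real.log ((⨆ j, f (b j)) * (⨆ j, f (x j)) / f (∑ j, b j * x j))

lemma lamf_nonneg {n : ℕ} (v : HeightOneSpectrum (𝓞 L)) {b x : Fin (n + 1) → L} (hb : b ≠ 0)
    (hx : x ≠ 0) (hl : ∑ j, b j * x j ≠ 0) : 0 ≤ lamf (fv v) b x :=
  Pool.Agent.W232.VA.lam_fin_nonneg v hb hx hl

/-- the sum of the local heights at infinity and at the primes in a finite set -/
lemma sum_lamf_le {n : ℕ} {b x : Fin (n + 1) → L} (hb : b ≠ 0) (hx : x ≠ 0)
    (hl : ∑ j, b j * x j ≠ 0) (U : Finset (HeightOneSpectrum (𝓞 L))) :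
    ∑ w : InfinitePlace L, (w.mult : ℝ) * lamf w.1 b x + ∑ v ∈ U, lamf (fv v) b x ≤
      logHeight b + logHeight x := by
  set T : Finset (HeightOneSpectrum (𝓞 L)) := U ∪ ((sup_finite hb).toFinset ∪
    ((sup_finite hx).toFinset ∪ (fv_support_finite hl).toFinset)) with hT
  have hTb : ∀ v, v ∉ T → (⨆ j, fv v (b j)) = 1 := by
    intro v hv
    by_contra hc
    apply hv
    rw [hT]
    simp only [Finset.mem_union, Set.Finite.mem_toFinset]
    exact Or.inr (Or.inl hc)
  have hTx : ∀ v, v ∉ T → (⨆ j, fv v (x j)) = 1 := by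
    intro v hv
    by_contra hc
    apply hv
    rw [hT]
    simp only [Finset.mem_union, Set.Finite.mem_toFinset]
    exact Or.inr (Or.inr (Or.inl hc))
  have hTl : ∀ v, v ∉ T → fv v (∑ j, b j * x j) = 1 := by
    intro v hv
    by_contra hc
    apply hv
    rw [hT]
    simp only [Finset.mem_union, Set.Finite.mem_toFinset]
    exact Or.inr (Or.inr (Or.inr hc))
  have h1 := logHeight_sum b hb T hTb
  have h2 := logHeight_sum x hx T hTx
  have h3 := Pool.Agent.TH905.VF.product_formula hl T hTl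
  have hlog : ∀ f : AbsoluteValue L ℝ, lamf f b x =
      Real.log (⨆ j, f (b j)) + Real.log (⨆ j, f (x j)) - Real.log (f (∑ j, b j * x j)) := by
    intro f
    unfold lamf
    rw [Real.log_div (mul_pos (sup_pos' f hb) (sup_pos' f hx)).ne' (f.pos hl).ne',
      Real.log_mul (sup_pos' f hb).ne' (sup_pos' f hx).ne']
  have h4 : ∑ v ∈ U, lamf (fv v) b x ≤ ∑ v ∈ T, lamf (fv v) b x :=
    Finset.sum_le_sum_of_subset_of_nonneg Finset.subset_union_left
      fun v _ _ => lamf_nonneg v hb hx hl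
  have h5 : ∑ w : InfinitePlace L, (w.mult : ℝ) * lamf w.1 b x =
      ∑ w : InfinitePlace L, (w.mult : ℝ) * Real.log (⨆ j, w.1 (b j)) +
      ∑ w : InfinitePlace L, (w.mult : ℝ) * Real.log (⨆ j, w.1 (x j)) -
      ∑ w : InfinitePlace L, (w.mult : ℝ) * Real.log (w.1 (∑ j, b j * x j)) := by
    rw [← Finset.sum_add_distrib, ← Finset.sum_sub_distrib]
    refine Finset.sum_congr rfl fun w _ => ?_
    rw [hlog]
    ring
  have h6 : ∑ v ∈ T, lamf (fv v) b x =
      ∑ v ∈ T, Real.log (⨆ j, fv v (b j)) + ∑ v ∈ T, Real.log (⨆ j, fv v (x j)) -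
      ∑ v ∈ T, Real.log (fv v (∑ j, b j * x j)) := by
    rw [← Finset.sum_add_distrib, ← Finset.sum_sub_distrib]
    refine Finset.sum_congr rfl fun v _ => ?_
    rw [hlog]
  linarith

end one

section two

variable {K L : Type*} [Field K] [NumberField K] [Field L] [NumberField L] [Algebra K L]

lemma map_ne {n : ℕ} {b : Fin (n + 1) → K} (hb : b ≠ 0) : (fun j => algebraMap K L (b j)) ≠ 0 := by
  intro h
  apply hb
  funext j
  have := congrFun h j
  exact (map_eq_zero _).1 this

lemma map_lin {n : ℕ} (b x : Fin (n + 1) → K) :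
    ∑ j, algebraMap K L (b j) * algebraMap K L (x j) = algebraMap K L (lin b x) := by
  unfold lin
  rw [map_sum]
  exact Finset.sum_congr rfl fun j _ => (map_mul _ _ _).symm

lemma lamL_eq {n : ℕ} (b x : Fin (n + 1) → K) (w : HeightOneSpectrum (𝓞 L)) :
    lamL b x w = lamf (fv w) (fun j => algebraMap K L (b j)) (fun j => algebraMap K L (x j)) := by
  unfold lamL lamf
  rw [map_lin]

/-- the proximity function of the hyperplane `b = 0`, relative to `K` -/
noncomputable def proxL {K : Type*} (L : Type*) [Field K] [NumberField K] [Field L] [NumberField L]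
    [Algebra K L] {n : ℕ} (S : Finset (HeightOneSpectrum (𝓞 K))) (b x : Fin (n + 1) → K) : ℝ :=
  (∑ w : InfinitePlace L, (w.mult : ℝ) * Real.log ((⨆ j, w.1 (algebraMap K L (b j))) *
      (⨆ j, w.1 (algebraMap K L (x j))) / w.1 (algebraMap K L (lin b x))) +
    ∑ᶠ w ∈ {w : HeightOneSpectrum (𝓞 L) | ∃ v ∈ S, w.asIdeal.LiesOver v.asIdeal}, lamL b x w) /
      Module.finrank K L

lemma proxL_sum {n : ℕ} {b x : Fin (n + 1) → K} (hb : b ≠ 0) (hx : x ≠ 0) (hl : lin b x ≠ 0)
    (S : Finset (HeightOneSpectrum (𝓞 K))) (W : Finset (HeightOneSpectrum (𝓞 L)))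
    (hW : ∀ w ∈ W, ∀ v ∈ S, ¬ w.asIdeal.LiesOver v.asIdeal) :
    ∑ w ∈ W, lamL b x w ≤ Module.finrank K L * (logHeight b + logHeight x - proxL L S b x) := by
  have hLp := finrank_pos' (k := K) (L := L)
  have hb' := map_ne (L := L) hb
  have hx' := map_ne (L := L) hx
  have hl' : ∑ j, algebraMap K L (b j) * algebraMap K L (x j) ≠ 0 := by
    rw [map_lin]
    exact (map_ne_zero _).2 hl
  set V := (over_finite (L := L) S).toFinset with hV
  have hdisj : Disjoint V W := by
    rw [Finset.disjoint_left]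
    intro w hw hw'
    rw [hV, Set.Finite.mem_toFinset] at hw
    obtain ⟨v, hv, hvw⟩ := hw
    exact hW w hw' v hv hvw
  have h1 := sum_lamf_le hb' hx' hl' (V ∪ W)
  rw [Finset.sum_union hdisj] at h1
  have e1 := Pool.Agent.Helper259.HtExt.logHeight_ext (L := L) b
  have e2 := Pool.Agent.Helper259.HtExt.logHeight_ext (L := L) x
  have h2 : Module.finrank K L * proxL L S b x =
      ∑ w : InfinitePlace L, (w.mult : ℝ) * lamf w.1 (fun j => algebraMap K L (b j))
        (fun j => algebraMap K L (x j)) + ∑ w ∈ V, lamf (fv w) (fun j => algebraMap K L (b j))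
        (fun j => algebraMap K L (x j)) := by
    unfold proxL
    rw [mul_div_cancel₀ _ hLp.ne', finsum_mem_eq_finite_toFinset_sum _ (over_finite (L := L) S)]
    congr 1
    · refine Finset.sum_congr rfl fun w _ => ?_
      unfold lamf
      rw [map_lin]
    · exact Finset.sum_congr rfl fun w _ => lamL_eq b x w
  have h3 : ∑ w ∈ W, lamL b x w = ∑ w ∈ W, lamf (fv w) (fun j => algebraMap K L (b j))
      (fun j => algebraMap K L (x j)) := Finset.sum_congr rfl fun w _ => lamL_eq b x w
  rw [h3]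
  have h4 : (Module.finrank K L : ℝ) * (logHeight b + logHeight x - proxL L S b x) =
      Module.finrank K L * logHeight b + Module.finrank K L * logHeight x -
        Module.finrank K L * proxL L S b x := by ring
  rw [h4, h2, ← e1, ← e2]
  linarith

/-- the inequality over one extension -/
theorem stack_one {n q : ℕ} {a : Fin q → Fin (n + 1) → K} (ha0 : ∀ i, a i ≠ 0)
    {x : Fin (n + 1) → K} (hx : x ≠ 0) (hl : ∀ i, lin (a i) x ≠ 0)
    (S : Finset (HeightOneSpectrum (𝓞 K))) (e : Fin q → ℕ) (he : ∀ i, 1 ≤ e i)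
    (J : Finset (Fin q))
    (hint : ∀ w : HeightOneSpectrum (𝓞 L), (∀ v ∈ S, ¬ w.asIdeal.LiesOver v.asIdeal) →
      ∀ i, ∃ m : ℕ, lamL (a i) x w = m * e i * Real.log (Ideal.absNorm w.asIdeal)) :
    N1 (S.image FinitePlace.mk) a x + ∑ i ∈ Jᶜ, 1 / (e i : ℝ) * proxL L S (a i) x ≤
      ld K L + nJ L S a J x + ∑ i ∈ Jᶜ, 1 / (e i : ℝ) * (logHeight (a i) + logHeight x) := by
  have hLp := finrank_pos' (k := K) (L := L)
  have he0 : ∀ i, (0 : ℝ) < e i := fun i => by exact_mod_cast he i
  have hfv : ∀ (v : HeightOneSpectrum (𝓞 K)) (z : K), FinitePlace.mk v z = fv v z :=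
    fun v z => rfl
  have hnn : ∀ i (w : HeightOneSpectrum (𝓞 L)), 0 ≤ lamL (a i) x w := by
    intro i w
    rw [lamL_eq]
    refine lamf_nonneg w (map_ne (ha0 i)) (map_ne hx) ?_
    rw [map_lin]
    exact (map_ne_zero _).2 (hl i)
  have hfin : {v : FinitePlace K | v ∉ S.image FinitePlace.mk ∧ ∃ i, Meets (a i) x v}.Finite := by
    refine (Set.finite_iUnion fun i => Pool.Agent.H57R3.VJ.meets_fin (ha0 i) hx (hl i)).subset ?_
    rintro v ⟨-, i, hi⟩
    exact Set.mem_iUnion.2 ⟨i, hi⟩
  have h1 : N1 (S.image FinitePlace.mk) a x = ∑ v ∈ hfin.toFinset, Real.log (NN v) := by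
    unfold N1
    rw [finsum_eq_sum_of_support_subset (s := hfin.toFinset)]
    · refine Finset.sum_congr rfl fun v hv => ?_
      exact if_pos ((Set.Finite.mem_toFinset _).1 hv)
    · intro v hv
      rw [Finset.mem_coe, Set.Finite.mem_toFinset]
      by_contra hc
      exact hv (if_neg hc)
  set R : Finset (HeightOneSpectrum (𝓞 K)) := hfin.toFinset.image FinitePlace.maximalIdeal with hR
  have h2 : ∑ v ∈ hfin.toFinset, Real.log (NN v) =
      ∑ w ∈ R, Real.log (Ideal.absNorm w.asIdeal) := by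
    rw [hR, Finset.sum_image]
    · exact Finset.sum_congr rfl fun v _ => Pool.Agent.TH905.VF.log_NN v
    · intro v _ w _ h
      rw [← FinitePlace.mk_maximalIdeal v, ← FinitePlace.mk_maximalIdeal w]
      exact congrArg _ h
  have hRp : ∀ v ∈ R, v ∉ S ∧ ∃ i, Meets (a i) x (FinitePlace.mk v) := by
    intro v hv
    rw [hR] at hv
    obtain ⟨u, hu, rfl⟩ := Finset.mem_image.1 hv
    obtain ⟨h3, h4⟩ := (Set.Finite.mem_toFinset _).1 hu
    refine ⟨fun h5 => h3 ?_, ?_⟩
    · rw [Finset.mem_image]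
      exact ⟨_, h5, FinitePlace.mk_maximalIdeal u⟩
    · rwa [FinitePlace.mk_maximalIdeal]
  -- the finite set of `nJ`
  have hfinJ : {w : HeightOneSpectrum (𝓞 L) | (∀ v ∈ S, ¬ w.asIdeal.LiesOver v.asIdeal) ∧
      ∃ i ∈ J, 0 < lamL (a i) x w}.Finite := by
    refine (Set.finite_iUnion fun i => lamL_support (L := L) (ha0 i) hx (hl i)).subset ?_
    rintro w ⟨-, i, -, hi⟩
    exact Set.mem_iUnion.2 ⟨i, hi.ne'⟩
  have hnJ : nJ L S a J x = (∑ w ∈ hfinJ.toFinset, Real.log (Ideal.absNorm w.asIdeal)) /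
      Module.finrank K L := by
    unfold nJ
    rw [finsum_eq_sum_of_support_subset (s := hfinJ.toFinset)]
    · congr 1
      refine Finset.sum_congr rfl fun w hw => ?_
      exact if_pos ((Set.Finite.mem_toFinset _).1 hw)
    · intro w hw
      rw [Finset.mem_coe, Set.Finite.mem_toFinset]
      by_contra hc
      exact hw (if_neg hc)
  have hwS : ∀ v ∈ R, ∀ w : HeightOneSpectrum (𝓞 L), w.asIdeal.LiesOver v.asIdeal →
      ∀ v' ∈ S, ¬ w.asIdeal.LiesOver v'.asIdeal := by
    intro v hv w hvw v' hv' hvw'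
    have h4 : v = v' := HeightOneSpectrum.ext (hvw.over.trans hvw'.over.symm)
    exact (hRp v hv).1 (h4 ▸ hv')
  have key := keyW (k := K) (L := L) R hfinJ.toFinset
    (fun w => ∑ i ∈ Jᶜ, 1 / (e i : ℝ) * lamL (a i) x w)
    (∑ i ∈ Jᶜ, 1 / (e i : ℝ) * (Module.finrank K L *
      (logHeight (a i) + logHeight x - proxL L S (a i) x))) ?_ ?_
  · rw [h1, h2]
    rw [add_div, ← hnJ] at key
    have h7 : (∑ i ∈ Jᶜ, 1 / (e i : ℝ) * (Module.finrank K L *
        (logHeight (a i) + logHeight x - proxL L S (a i) x))) / Module.finrank K L =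
        ∑ i ∈ Jᶜ, 1 / (e i : ℝ) * (logHeight (a i) + logHeight x) -
          ∑ i ∈ Jᶜ, 1 / (e i : ℝ) * proxL L S (a i) x := by
      rw [Finset.sum_div, ← Finset.sum_sub_distrib]
      refine Finset.sum_congr rfl fun i _ => ?_
      field_simp
    rw [h7] at key
    linarith
  · rintro w ⟨v, hvR, hvw⟩
    have hterm : ∀ i, 0 ≤ 1 / (e i : ℝ) * lamL (a i) x w := fun i =>
      mul_nonneg (by positivity) (hnn i w)
    refine ⟨Finset.sum_nonneg fun i _ => hterm i, ?_⟩
    obtain ⟨i, hi⟩ := (hRp v hvR).2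
    have hwS' := hwS v hvR w hvw
    have hpos : 0 < lamL (a i) x w := by
      -- the strict inequality extends to the place `w`
      obtain ⟨j0, hj0⟩ := Pool.Agent.H57R3.VJ.sv_att (FinitePlace.mk v) (a i)
      obtain ⟨j1, hj1⟩ := Pool.Agent.H57R3.VJ.sv_att (FinitePlace.mk v) x
      have h3 : fv v (lin (a i) x) < fv v (a i j0 * x j1) := by
        have h4 := hi
        unfold Meets at h4
        rw [hj0, hj1] at h4
        rw [map_mul, ← hfv, ← hfv, ← hfv]
        exact h4
      have h4 := (fv_lt_ext (L := L) v w hvw _ _).2 h3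
      unfold lamL
      refine Real.log_pos ?_
      rw [one_lt_div ((fv w).pos ((map_ne_zero _).2 (hl i)))]
      refine h4.trans_le ?_
      rw [map_mul, map_mul]
      refine mul_le_mul ?_ ?_ ((fv w).nonneg _) ?_
      · exact le_ciSup (f := fun j => fv w (algebraMap K L (a i j)))
          (Set.finite_range _).bddAbove j0
      · exact le_ciSup (f := fun j => fv w (algebraMap K L (x j)))
          (Set.finite_range _).bddAbove j1
      · exact (sup_pos' (fv w) (map_ne (L := L) (ha0 i))).le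
    by_cases hiJ : i ∈ J
    · left
      rw [Set.Finite.mem_toFinset]
      exact ⟨hwS', i, hiJ, hpos⟩
    · right
      obtain ⟨m, hm⟩ := hint w hwS' i
      have hm1 : 1 ≤ m := by
        by_contra hc
        have : m = 0 := by omega
        rw [hm, this, Nat.cast_zero, zero_mul, zero_mul] at hpos
        exact lt_irrefl _ hpos
      have h5 : Real.log (Ideal.absNorm w.asIdeal) ≤ 1 / (e i : ℝ) * lamL (a i) x w := by
        rw [hm]
        have h0 : 0 ≤ Real.log (Ideal.absNorm w.asIdeal : ℝ) := Real.log_natCast_nonneg _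
        have hm1' : (1 : ℝ) ≤ m := by exact_mod_cast hm1
        have he' := (he0 i).ne'
        have : 1 / (e i : ℝ) * (m * e i * Real.log (Ideal.absNorm w.asIdeal)) =
            m * Real.log (Ideal.absNorm w.asIdeal) := by
          field_simp
        rw [this]
        nlinarith
      refine h5.trans ?_
      exact Finset.single_le_sum (f := fun i => 1 / (e i : ℝ) * lamL (a i) x w)
        (fun i _ => hterm i) (Finset.mem_compl.2 hiJ)
  · intro W hW
    rw [Finset.sum_comm]
    refine Finset.sum_le_sum fun i _ => ?_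
    rw [← Finset.mul_sum]
    refine mul_le_mul_of_nonneg_left (proxL_sum (ha0 i) hx (hl i) S W ?_) (by positivity)
    intro w hw
    obtain ⟨v, hv, hvw⟩ := hW w hw
    exact hwS v hv w hvw

end two

/-- the inequality over all extensions of the field of the coefficients -/
theorem stack_unif {k : Type} [Field k] [NumberField k] {n q : ℕ}
    {a : Fin q → Fin (n + 1) → k} (ha0 : ∀ i, a i ≠ 0) :
    ∃ A : ℝ, 0 ≤ A ∧ ∀ (K : Type) [Field K] [NumberField K] [Algebra k K],
      ∀ x : Fin (n + 1) → K, x ≠ 0 → (∀ i, lin (up K a i) x ≠ 0) →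
      ∀ (L : Type) [Field L] [NumberField L] [Algebra K L]
      (S : Finset (HeightOneSpectrum (𝓞 K))) (e : Fin q → ℕ), (∀ i, 1 ≤ e i) →
      ∀ J : Finset (Fin q),
      (∀ w : HeightOneSpectrum (𝓞 L), (∀ v ∈ S, ¬ w.asIdeal.LiesOver v.asIdeal) →
        ∀ i, ∃ m : ℕ, lamL (up K a i) x w = m * e i * Real.log (Ideal.absNorm w.asIdeal)) →
      N1 (S.image FinitePlace.mk) (up K a) x + ∑ i ∈ Jᶜ, 1 / (e i : ℝ) * proxL L S (up K a i) x ≤
        ld K L + nJ L S (up K a) J x + (∑ i ∈ Jᶜ, 1 / (e i : ℝ)) * logHeight x +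
          Module.finrank ℚ K * A := by
  have h : ∀ i : Fin q, ∃ A : ℝ, 0 ≤ A ∧ ∀ (K : Type) [Field K] [NumberField K] [Algebra k K],
      mulHeight (fun j => algebraMap k K (a i j)) ≤ Real.exp (Module.finrank ℚ K * A) :=
    fun i => height_unif (a i) (ha0 i)
  choose A hA0 hA using h
  refine ⟨∑ i, A i, Finset.sum_nonneg fun i _ => hA0 i, ?_⟩
  intro K _ _ _ x hx hl L _ _ _ S e he J hint
  have h1 := stack_one (K := K) (L := L) (fun i => up_ne_zero (ha0 i)) hx hl S e he J hint
  have he0 : ∀ i, (0 : ℝ) < e i := fun i => by exact_mod_cast he i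
  have hn0 : (0 : ℝ) ≤ Module.finrank ℚ K := Nat.cast_nonneg _
  have h2 : ∑ i ∈ Jᶜ, 1 / (e i : ℝ) * (logHeight (up K a i) + logHeight x) ≤
      (∑ i ∈ Jᶜ, 1 / (e i : ℝ)) * logHeight x + Module.finrank ℚ K * ∑ i, A i := by
    have h3 : ∑ i ∈ Jᶜ, 1 / (e i : ℝ) * (logHeight (up K a i) + logHeight x) =
        ∑ i ∈ Jᶜ, 1 / (e i : ℝ) * logHeight (up K a i) +
          (∑ i ∈ Jᶜ, 1 / (e i : ℝ)) * logHeight x := by
      rw [Finset.sum_mul, ← Finset.sum_add_distrib]
      exact Finset.sum_congr rfl fun i _ => by ring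
    have h4 : ∑ i ∈ Jᶜ, 1 / (e i : ℝ) * logHeight (up K a i) ≤
        Module.finrank ℚ K * ∑ i, A i := by
      rw [Finset.mul_sum]
      refine le_trans ?_ (Finset.sum_le_sum_of_subset_of_nonneg (Finset.subset_univ (Jᶜ))
        (f := fun i => (Module.finrank ℚ K : ℝ) * A i) fun i _ _ => mul_nonneg hn0 (hA0 i))
      refine Finset.sum_le_sum fun i _ => ?_
      have h5 : logHeight (up K a i) ≤ Module.finrank ℚ K * A i := by
        rw [logHeight_eq_log_mulHeight]
        have h6 := Real.log_le_log (by positivity) (hA i K)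
        rwa [Real.log_exp] at h6
      have h6 : 1 / (e i : ℝ) ≤ 1 := by
        rw [div_le_one (he0 i)]
        exact_mod_cast he i
      have h7 : 0 ≤ (Module.finrank ℚ K : ℝ) * A i := mul_nonneg hn0 (hA0 i)
      have h8 : 0 < 1 / (e i : ℝ) := by have := he0 i; positivity
      nlinarith
    rw [h3]
    linarith
  linarith

end Pool.Agent.N752.FD
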